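import Pool.Agent.PCO.StmtsP

/-!
# PCO squad, row COD (Theorem CO)
-/

set_option autoImplicit false

open Matrix Filter Topology

namespace Pool.Agent.PCO.H60

open Pool.Agent.PFS Pool.Agent.PFJ Pool.Agent.PCO

theorem cod (hEXB : ExbStmt) (hPZ3 : Pz3Stmt) : CodStmt := by
  intro n C Γ hCC hM w hw h3 hn hmax
  obtain ⟨U, v, T, hB, hd, -, -⟩ := hEXB n C Γ hCC hM w hw h3
  have H : Hyp C Γ (Module.finrank ℝ (Submodule.span ℝ (Face C (w 0 + w 1)))) :=
    { toCC := hCC, maxc := hM, maxd := hmax, three := h3, codim := hn }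
  obtain ⟨v', hv', -, -, -, hc⟩ := hPZ3 n C Γ _ H U v hB hd
  exact ⟨v', hv', hc⟩

end Pool.Agent.PCO.H60
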